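import Mathlib

/-!
The class `D` of distributive demonic join semigroups of relations is not finitely axiomatisable.

We exhibit structures `Alg m` (on sets of coordinates, with union as the sum) which have no
representation, while their ultraproduct over a nonprincipal ultrafilter is distributive and has
an explicit representation.
-/

namespace Pool.Agent.Results.MP_1770d1_lc.NotFinAx

open FirstOrder Filter

universe u v

/-! ### Definitions used in the statement -/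

/-- The two binary operation symbols. -/
inductive Op : ℕ → Type
  | add : Op 2
  | comp : Op 2

/-- The signature with two binary operations and no relation symbols. -/
def sig : Language := ⟨Op, fun _ => Empty⟩

/-- The sum of the structure. -/
def plus {A : Type v} [sig.Structure A] (a b : A) : A :=
  Language.Structure.funMap (L := sig) (n := 2) Op.add ![a, b]

/-- The product of the structure. -/
def circ {A : Type v} [sig.Structure A] (a b : A) : A :=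
  Language.Structure.funMap (L := sig) (n := 2) Op.comp ![a, b]

/-- The domain of a relation. -/
def dom {X : Type u} (R : Set (X × X)) : Set X := {x | ∃ y, (x, y) ∈ R}

/-- Ordinary composition of relations. -/
def compRel {X : Type u} (R S : Set (X × X)) : Set (X × X) :=
  {q | ∃ y, (q.1, y) ∈ R ∧ (y, q.2) ∈ S}

/-- The demonic join of relations. -/
def demJoin {X : Type u} (R S : Set (X × X)) : Set (X × X) :=
  {q | q ∈ R ∪ S ∧ q.1 ∈ dom R ∩ dom S}

/-- `A` has a representation by relations, with demonic join and ordinary composition. -/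
def Representable (A : Type v) [sig.Structure A] : Prop :=
  ∃ (X : Type u) (h : A → Set (X × X)), Function.Injective h ∧
    (∀ a b : A, h (plus a b) = demJoin (h a) (h b)) ∧
    (∀ a b : A, h (circ a b) = compRel (h a) (h b))

/-- The order of the semilattice. -/
def le {A : Type v} [sig.Structure A] (a b : A) : Prop := plus a b = b

/-- Distributivity of the semilattice. -/
def Distributive (A : Type v) [sig.Structure A] : Prop :=
  ∀ a b c : A, le a (plus b c) → ∃ b' c' : A, le b' b ∧ le c' c ∧ a = plus b' c'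

/-- The class `D`. -/
def InD (A : Type v) [sig.Structure A] : Prop :=
  Representable.{u, v} A ∧ Distributive A

/-! ### The structures -/

/-- coordinates -/
inductive Om : Type v
  | v : Om
  | s0 (n : ℕ) : Om
  | r0 (n : ℕ) : Om
  | t : Om
  | s1 (n : ℕ) : Om
  | r1 (n : ℕ) : Om
  | k : Om

/-- the support of the middle part of `b` contains `n` -/
def sup (b : Set Om.{v}) (n : ℕ) : Prop := Om.s1 n ∈ b ∨ Om.r1 n ∈ b

/-- the twisted marker -/
def phi (m : ℕ) (b : Set Om.{v}) : Prop :=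
  (∃ n, sup b n ∧ n ≠ 0 ∧ n ≠ m + 2) ∨ (sup b 0 ∧ ¬ sup b (m + 2))

/-- the product -/
def mulSet (m : ℕ) (a b : Set Om.{v}) : Set Om.{v} := {q | match q with
  | .v => False
  | .s0 n => (Om.v ∈ a ∧ Om.s1 n ∈ b) ∨ Om.s0 n ∈ a ∨ Om.r0 n ∈ a ∨
      (Om.k ∈ b ∧ ∃ j, n = j + 1 ∧ Om.r0 j ∈ a)
  | .r0 n => Om.v ∈ a ∧ Om.r1 n ∈ b
  | .t => (Om.v ∈ a ∧ phi m b) ∨ Om.t ∈ a ∨ (Om.k ∈ b ∧ (Om.r0 0 ∈ a ∨ Om.r0 (m + 2) ∈ a))
  | .s1 n => Om.s1 n ∈ a ∨ Om.r1 n ∈ a ∨ (Om.k ∈ b ∧ ∃ j, n = j + 1 ∧ Om.r1 j ∈ a)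
  | .r1 _ => False
  | .k => Om.k ∈ a}

lemma mem_v (m : ℕ) (a b : Set Om.{v}) : Om.v ∈ mulSet m a b ↔ False := Iff.rfl
lemma mem_s0 (m n : ℕ) (a b : Set Om.{v}) : Om.s0 n ∈ mulSet m a b ↔
    ((Om.v ∈ a ∧ Om.s1 n ∈ b) ∨ Om.s0 n ∈ a ∨ Om.r0 n ∈ a ∨
      (Om.k ∈ b ∧ ∃ j, n = j + 1 ∧ Om.r0 j ∈ a)) := Iff.rfl
lemma mem_r0 (m n : ℕ) (a b : Set Om.{v}) : Om.r0 n ∈ mulSet m a b ↔
    (Om.v ∈ a ∧ Om.r1 n ∈ b) := Iff.rfl
lemma mem_t (m : ℕ) (a b : Set Om.{v}) : Om.t ∈ mulSet m a b ↔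
    ((Om.v ∈ a ∧ phi m b) ∨ Om.t ∈ a ∨ (Om.k ∈ b ∧ (Om.r0 0 ∈ a ∨ Om.r0 (m + 2) ∈ a))) := Iff.rfl
lemma mem_s1 (m n : ℕ) (a b : Set Om.{v}) : Om.s1 n ∈ mulSet m a b ↔
    (Om.s1 n ∈ a ∨ Om.r1 n ∈ a ∨ (Om.k ∈ b ∧ ∃ j, n = j + 1 ∧ Om.r1 j ∈ a)) := Iff.rfl
lemma mem_r1 (m n : ℕ) (a b : Set Om.{v}) : Om.r1 n ∈ mulSet m a b ↔ False := Iff.rfl
lemma mem_k (m : ℕ) (a b : Set Om.{v}) : Om.k ∈ mulSet m a b ↔ Om.k ∈ a := Iff.rfl

/-- the structure with parameter `m` -/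
def Alg (_m : ℕ) : Type v := Set Om.{v}

instance (m : ℕ) : Nonempty (Alg.{v} m) := ⟨(∅ : Set Om.{v})⟩

/-- the sum -/
def addSet (a b : Set Om.{v}) : Set Om.{v} := a ∪ b

instance (m : ℕ) : sig.Structure (Alg.{v} m) where
  funMap {n} f := match n, f with
    | _, Op.add => fun x => addSet (x 0) (x 1)
    | _, Op.comp => fun x => mulSet m (x 0) (x 1)
  RelMap {_} r := r.elim

lemma plus_alg (m : ℕ) (a b : Alg.{v} m) : plus a b = addSet a b := rfl

lemma circ_alg (m : ℕ) (a b : Alg.{v} m) : circ a b = mulSet m a b := rfl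

lemma zero_mul (m : ℕ) (b : Set Om.{v}) : mulSet m ∅ b = ∅ := by
  ext q
  cases q <;> simp [mem_v, mem_s0, mem_r0, mem_t, mem_s1, mem_r1, mem_k]

lemma r1_mul_zero (m j : ℕ) : mulSet.{v} m {Om.r1 j} ∅ = {Om.s1 j} := by
  ext q
  cases q <;> simp [mem_v, mem_s0, mem_r0, mem_t, mem_s1, mem_r1, mem_k]

lemma r1_mul_k (m j : ℕ) : mulSet.{v} m {Om.r1 j} {Om.k} = {Om.s1 j} ∪ {Om.s1 (j + 1)} := by
  ext q
  cases q <;> simp [mem_v, mem_s0, mem_r0, mem_t, mem_s1, mem_r1, mem_k]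
  exact or_comm

lemma v_mul_zero (m : ℕ) : mulSet.{v} m {Om.v} {Om.s1 0} = {Om.s0 0, Om.t} := by
  ext q
  cases q <;> simp [mem_v, mem_s0, mem_r0, mem_t, mem_s1, mem_r1, mem_k, phi, sup]

lemma v_mul_far (m : ℕ) :
    mulSet.{v} m {Om.v} ({Om.s1 0} ∪ {Om.s1 (m + 2)}) = {Om.s0 0, Om.s0 (m + 2)} := by
  ext q
  cases q <;> simp [mem_v, mem_s0, mem_r0, mem_t, mem_s1, mem_r1, mem_k, phi, sup]
  exact or_comm

/-! ### The structures have no representation -/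

section NonRep

variable {X : Type u} {m : ℕ} {h : Set Om.{v} → Set (X × X)}

lemma dom_union (hp : ∀ a b, h (a ∪ b) = demJoin (h a) (h b)) (a b : Set Om.{v}) :
    dom (h (a ∪ b)) = dom (h a) ∩ dom (h b) := by
  ext x
  rw [hp]
  constructor
  · rintro ⟨y, hy⟩
    exact hy.2
  · rintro ⟨⟨y, hy⟩, hb⟩
    exact ⟨y, Or.inl hy, ⟨y, hy⟩, hb⟩

lemma mem_of_sub (hp : ∀ a b, h (a ∪ b) = demJoin (h a) (h b)) {a b : Set Om.{v}} (hab : a ⊆ b)
    {x y : X} (hxy : (x, y) ∈ h a) (hx : x ∈ dom (h b)) : (x, y) ∈ h b := by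
  have e : a ∪ b = b := Set.union_eq_right.2 hab
  have : (x, y) ∈ h (a ∪ b) := by
    rw [hp]
    exact ⟨Or.inl hxy, ⟨y, hxy⟩, hx⟩
  rwa [e] at this

lemma dom_sub (hp : ∀ a b, h (a ∪ b) = demJoin (h a) (h b)) {a b : Set Om.{v}} (hab : a ⊆ b) :
    dom (h b) ⊆ dom (h a) := by
  have e : a ∪ b = b := Set.union_eq_right.2 hab
  intro x hx
  rw [← e, dom_union hp] at hx
  exact hx.1

lemma dom_mul_left (hc : ∀ a b, h (mulSet m a b) = compRel (h a) (h b)) (a b : Set Om.{v}) :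
    dom (h (mulSet m a b)) ⊆ dom (h a) := by
  rintro x ⟨z, hz⟩
  rw [hc] at hz
  obtain ⟨y, hy, _⟩ := hz
  exact ⟨y, hy⟩

lemma dom_mul_right (hp : ∀ a b, h (a ∪ b) = demJoin (h a) (h b))
    (hc : ∀ a b, h (mulSet m a b) = compRel (h a) (h b)) (a b : Set Om.{v}) :
    dom (h a) ⊆ dom (h (mulSet m a b)) := by
  intro x hx
  have h0 : x ∈ dom (h (∅ : Set Om.{v})) := dom_sub hp (Set.empty_subset a) hx
  obtain ⟨z, hz⟩ := h0
  rw [← zero_mul m b, hc] at hz
  obtain ⟨y, hy, hyz⟩ := hz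
  refine ⟨z, ?_⟩
  rw [hc]
  exact ⟨y, mem_of_sub hp (Set.empty_subset a) hy hx, hyz⟩

lemma dom_step (hp : ∀ a b, h (a ∪ b) = demJoin (h a) (h b))
    (hc : ∀ a b, h (mulSet m a b) = compRel (h a) (h b)) (j : ℕ) :
    dom (h {Om.s1 j}) ⊆ dom (h {Om.s1 (j + 1)}) := by
  intro x hx
  rw [← r1_mul_zero m j] at hx
  have h1 := dom_mul_right hp hc _ ({Om.k} : Set Om.{v}) (dom_mul_left hc _ _ hx)
  rw [r1_mul_k, dom_union hp] at h1
  exact h1.2

lemma dom_chain (hp : ∀ a b, h (a ∪ b) = demJoin (h a) (h b))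
    (hc : ∀ a b, h (mulSet m a b) = compRel (h a) (h b)) (j : ℕ) :
    dom (h {Om.s1 0}) ⊆ dom (h {Om.s1 j}) := by
  induction j with
  | zero => exact subset_rfl
  | succ j ih => exact ih.trans (dom_step hp hc j)

lemma not_rep (hi : Function.Injective h) (hp : ∀ a b, h (a ∪ b) = demJoin (h a) (h b))
    (hc : ∀ a b, h (mulSet m a b) = compRel (h a) (h b)) : False := by
  set p : Set Om.{v} := mulSet m {Om.v} {Om.s1 0} with hpdef
  set q : Set Om.{v} := mulSet m {Om.v} ({Om.s1 0} ∪ {Om.s1 (m + 2)}) with hqdef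
  have hpq : h (p ∪ q) = h q := by
    rw [hp]
    ext ⟨x, z⟩
    constructor
    · rintro ⟨h1 | h1, h2, h3⟩
      · rw [hpdef, hc] at h1
        obtain ⟨y, hy, hyz⟩ := h1
        rw [hqdef, hc]
        refine ⟨y, hy, ?_⟩
        rw [hp]
        exact ⟨Or.inl hyz, ⟨z, hyz⟩, dom_chain hp hc (m + 2) ⟨z, hyz⟩⟩
      · exact h1
    · intro h1
      have h2 : x ∈ dom (h {Om.v}) := by
        have : x ∈ dom (h q) := ⟨z, h1⟩
        exact dom_mul_left hc _ _ this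
      exact ⟨Or.inr h1, dom_mul_right hp hc _ _ h2, ⟨z, h1⟩⟩
  have e := hi hpq
  have ht : Om.t ∈ q := by
    rw [← e]
    left
    rw [hpdef, v_mul_zero]
    simp
  rw [hqdef, v_mul_far] at ht
  simp at ht

end NonRep

lemma not_representable (m : ℕ) : ¬ Representable.{u, v} (Alg.{v} m) := by
  rintro ⟨X, h, hi, hp, hc⟩
  exact not_rep (m := m) (h := h) hi (fun a b => hp a b) (fun a b => hc a b)

/-! ### The representation of the ultraproduct -/

/-- the base of the representation of the ultraproduct -/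
inductive Node : Type u
  | x : Node
  | y0 : Node
  | y1 : Node
  | om : Node
  | z : Node
  | s (i : ℕ → ℕ) : Node
  | p (i : ℕ → ℕ) : Node

/-- the ultrafilter -/
noncomputable abbrev U : Ultrafilter ℕ := hyperfilter ℕ

lemma ev_large (n : ℕ) : ∀ᶠ m in U, n < m :=
  (hyperfilter_le_cofinite.trans Nat.cofinite_eq_atTop.le) (eventually_gt_atTop n)

/-- bounded support -/
def Bd (a : ℕ → Set Om.{v}) : Prop := ∃ n, ∀ᶠ m in U, ∀ k, sup (a m) k → k ≤ n

/-- middle index -/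
def Mid (i : ℕ → ℕ) : Prop := ∀ᶠ m in U, i m ≠ 0 ∧ i m ≠ m + 2

/-- the relation attached to a sequence -/
def H (a : ℕ → Set Om.{v}) : Node.{u} → Node.{u} → Prop
  | .x, .y0 => ∀ᶠ m in U, Om.v ∈ a m
  | .x, .y1 => ∀ᶠ m in U, Om.v ∈ a m
  | .x, .s i => ∀ᶠ m in U, Om.s0 (i m) ∈ a m
  | .x, .p i => ∀ᶠ m in U, Om.r0 (i m) ∈ a m
  | .x, .z => ∀ᶠ m in U, Om.t ∈ a m
  | .x, .om => True
  | .y0, .s i => ∀ᶠ m in U, Om.s1 (i m) ∈ a m
  | .y0, .p i => ∀ᶠ m in U, Om.r1 (i m) ∈ a m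
  | .y0, .z => ∃ i, Mid i ∧ ∀ᶠ m in U, sup (a m) (i m)
  | .y0, .om => True
  | .y1, .s i => Bd a ∧ ∀ᶠ m in U, Om.s1 (i m) ∈ a m
  | .y1, .p i => Bd a ∧ ∀ᶠ m in U, Om.r1 (i m) ∈ a m
  | .y1, .z => Bd a ∧ ∀ᶠ m in U, sup (a m) 0
  | .y1, .om => Bd a
  | .om, .om => True
  | .z, .z => True
  | .z, .om => True
  | .s i, .s j => i = j
  | .s _, .om => True
  | .p i, .s j => (∀ᶠ m in U, j m = i m) ∨
      ((∀ᶠ m in U, Om.k ∈ a m) ∧ ∀ᶠ m in U, j m = i m + 1)
  | .p i, .z => (∀ᶠ m in U, Om.k ∈ a m) ∧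
      ((∀ᶠ m in U, i m = 0) ∨ ∀ᶠ m in U, i m = m + 2)
  | .p _, .om => True
  | _, _ => False

lemma ev_mem_union (a b : ℕ → Set Om.{v}) (q : ℕ → Om.{v}) :
    (∀ᶠ m in U, q m ∈ addSet (a m) (b m)) ↔
      (∀ᶠ m in U, q m ∈ a m) ∨ ∀ᶠ m in U, q m ∈ b m := by
  rw [← Ultrafilter.eventually_or]; rfl

lemma ev_sup_union (a b : ℕ → Set Om.{v}) (i : ℕ → ℕ) :
    (∀ᶠ m in U, sup (addSet (a m) (b m)) (i m)) ↔
      (∀ᶠ m in U, sup (a m) (i m)) ∨ ∀ᶠ m in U, sup (b m) (i m) := by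
  rw [← Ultrafilter.eventually_or]
  apply eventually_congr
  filter_upwards with m
  unfold sup addSet
  simp only [Set.mem_union]
  tauto

lemma bd_union (a b : ℕ → Set Om.{v}) : Bd (fun m => addSet (a m) (b m)) ↔ Bd a ∧ Bd b := by
  constructor
  · rintro ⟨n, hn⟩
    refine ⟨⟨n, hn.mono fun m h k hk => h k ?_⟩, ⟨n, hn.mono fun m h k hk => h k ?_⟩⟩
    · rcases hk with hk | hk
      · exact Or.inl (Or.inl hk)
      · exact Or.inr (Or.inl hk)
    · rcases hk with hk | hk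
      · exact Or.inl (Or.inr hk)
      · exact Or.inr (Or.inr hk)
  · rintro ⟨⟨n, hn⟩, ⟨n', hn'⟩⟩
    refine ⟨max n n', ?_⟩
    filter_upwards [hn, hn'] with m h h' k hk
    have : sup (a m) k ∨ sup (b m) k := by
      rcases hk with (hk | hk) | (hk | hk)
      · exact Or.inl (Or.inl hk)
      · exact Or.inr (Or.inl hk)
      · exact Or.inl (Or.inr hk)
      · exact Or.inr (Or.inr hk)
    rcases this with hk | hk
    · exact (h k hk).trans (le_max_left _ _)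
    · exact (h' k hk).trans (le_max_right _ _)

lemma H_om (a : ℕ → Set Om.{v}) : ∀ n : Node.{u}, n ≠ .y1 → H a n .om
  | .x, _ => trivial
  | .y0, _ => trivial
  | .y1, h => absurd rfl h
  | .om, _ => trivial
  | .z, _ => trivial
  | .s _, _ => trivial
  | .p _, _ => trivial

lemma H_y1 (a : ℕ → Set Om.{v}) : ∀ n : Node.{u}, H a .y1 n → Bd a
  | .x, h => h.elim
  | .y0, h => h.elim
  | .y1, h => h.elim
  | .om, h => h
  | .z, h => h.1
  | .s _, h => h.1
  | .p _, h => h.1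

lemma H_add_pairs (a b : ℕ → Set Om.{v}) : ∀ n w : Node.{u}, n ≠ .y1 →
    (H (fun m => addSet (a m) (b m)) n w ↔ H a n w ∨ H b n w)
  | .x, .y0, _ => ev_mem_union a b _
  | .x, .y1, _ => ev_mem_union a b _
  | .x, .s i, _ => ev_mem_union a b _
  | .x, .p i, _ => ev_mem_union a b _
  | .x, .z, _ => ev_mem_union a b _
  | .x, .om, _ => by simp [H]
  | .x, .x, _ => by simp [H]
  | .y0, .s i, _ => ev_mem_union a b _
  | .y0, .p i, _ => ev_mem_union a b _
  | .y0, .z, _ => by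
    simp only [H]
    constructor
    · rintro ⟨i, hi, h⟩
      rcases (ev_sup_union a b i).1 h with h | h
      · exact Or.inl ⟨i, hi, h⟩
      · exact Or.inr ⟨i, hi, h⟩
    · rintro (⟨i, hi, h⟩ | ⟨i, hi, h⟩)
      · exact ⟨i, hi, (ev_sup_union a b i).2 (Or.inl h)⟩
      · exact ⟨i, hi, (ev_sup_union a b i).2 (Or.inr h)⟩
  | .y0, .om, _ => by simp [H]
  | .y0, .x, _ => by simp [H]
  | .y0, .y0, _ => by simp [H]
  | .y0, .y1, _ => by simp [H]
  | .y1, _, h => absurd rfl h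
  | .om, w, _ => by cases w <;> simp [H]
  | .z, w, _ => by cases w <;> simp [H]
  | .s i, w, _ => by cases w <;> simp [H]
  | .p i, .s j, _ => by
    have := ev_mem_union a b (fun _ => Om.k)
    simp only [H, this]
    tauto
  | .p i, .z, _ => by
    have := ev_mem_union a b (fun _ => Om.k)
    simp only [H, this]
    tauto
  | .p i, .om, _ => by simp [H]
  | .p i, .x, _ => by simp [H]
  | .p i, .y0, _ => by simp [H]
  | .p i, .y1, _ => by simp [H]
  | .p i, .p j, _ => by simp [H]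

lemma H_add_y1 (a b : ℕ → Set Om.{v}) : ∀ w : Node.{u},
    (H (fun m => addSet (a m) (b m)) .y1 w ↔ (H a .y1 w ∨ H b .y1 w) ∧ Bd a ∧ Bd b)
  | .x => by simp [H]
  | .y0 => by simp [H]
  | .y1 => by simp [H]
  | .om => by
    simp only [H, bd_union]
    tauto
  | .z => by
    simp only [H, bd_union, ev_sup_union a b (fun _ => 0)]
    tauto
  | .s i => by
    simp only [H, bd_union, ev_mem_union a b (fun m => Om.s1 (i m))]
    tauto
  | .p i => by
    simp only [H, bd_union, ev_mem_union a b (fun m => Om.r1 (i m))]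
    tauto

lemma H_add (a b : ℕ → Set Om.{v}) (n w : Node.{u}) :
    H (fun m => addSet (a m) (b m)) n w ↔
      (H a n w ∨ H b n w) ∧ (∃ w', H a n w') ∧ ∃ w', H b n w' := by
  by_cases hn : n = .y1
  · subst hn
    rw [H_add_y1]
    constructor
    · rintro ⟨h, h1, h2⟩
      exact ⟨h, ⟨.om, h1⟩, ⟨.om, h2⟩⟩
    · rintro ⟨h, ⟨w1, h1⟩, ⟨w2, h2⟩⟩
      exact ⟨h, H_y1 a w1 h1, H_y1 b w2 h2⟩
  · rw [H_add_pairs a b n w hn]
    exact ⟨fun h => ⟨h, ⟨_, H_om a n hn⟩, ⟨_, H_om b n hn⟩⟩, fun h => h.1⟩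

/-- the product of sequences -/
def M (a b : ℕ → Set Om.{v}) : ℕ → Set Om.{v} := fun m => mulSet m (a m) (b m)

lemma ev_pred (j : ℕ → ℕ) (P : ℕ → ℕ → Prop) :
    (∀ᶠ m in U, ∃ l, j m = l + 1 ∧ P m l) ↔
      ∃ i : ℕ → ℕ, (∀ᶠ m in U, j m = i m + 1) ∧ ∀ᶠ m in U, P m (i m) := by
  constructor
  · intro h
    refine ⟨fun m => j m - 1, ?_, ?_⟩
    · filter_upwards [h] with m ⟨l, hl, _⟩
      omega
    · filter_upwards [h] with m ⟨l, hl, hp⟩
      have : j m - 1 = l := by omega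
      rw [this]; exact hp
  · rintro ⟨i, h1, h2⟩
    filter_upwards [h1, h2] with m h1 h2
    exact ⟨i m, h1, h2⟩

lemma ev_s1 (a b : ℕ → Set Om.{v}) (j : ℕ → ℕ) :
    (∀ᶠ m in U, Om.s1 (j m) ∈ M a b m) ↔
      (∀ᶠ m in U, Om.s1 (j m) ∈ a m) ∨ (∀ᶠ m in U, Om.r1 (j m) ∈ a m) ∨
        ((∀ᶠ m in U, Om.k ∈ b m) ∧ ∃ i : ℕ → ℕ, (∀ᶠ m in U, j m = i m + 1) ∧
          ∀ᶠ m in U, Om.r1 (i m) ∈ a m) := by
  simp only [M, mem_s1]
  rw [Ultrafilter.eventually_or, Ultrafilter.eventually_or, eventually_and, ev_pred]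

lemma ev_s0 (a b : ℕ → Set Om.{v}) (j : ℕ → ℕ) :
    (∀ᶠ m in U, Om.s0 (j m) ∈ M a b m) ↔
      ((∀ᶠ m in U, Om.v ∈ a m) ∧ ∀ᶠ m in U, Om.s1 (j m) ∈ b m) ∨
      (∀ᶠ m in U, Om.s0 (j m) ∈ a m) ∨ (∀ᶠ m in U, Om.r0 (j m) ∈ a m) ∨
        ((∀ᶠ m in U, Om.k ∈ b m) ∧ ∃ i : ℕ → ℕ, (∀ᶠ m in U, j m = i m + 1) ∧
          ∀ᶠ m in U, Om.r0 (i m) ∈ a m) := by
  simp only [M, mem_s0]
  rw [Ultrafilter.eventually_or, Ultrafilter.eventually_or, Ultrafilter.eventually_or,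
    eventually_and, eventually_and, ev_pred]

lemma ev_r0 (a b : ℕ → Set Om.{v}) (j : ℕ → ℕ) :
    (∀ᶠ m in U, Om.r0 (j m) ∈ M a b m) ↔
      (∀ᶠ m in U, Om.v ∈ a m) ∧ ∀ᶠ m in U, Om.r1 (j m) ∈ b m := by
  simp only [M, mem_r0]
  rw [eventually_and]

lemma ev_k (a b : ℕ → Set Om.{v}) :
    (∀ᶠ m in U, Om.k ∈ M a b m) ↔ ∀ᶠ m in U, Om.k ∈ a m := Iff.rfl

lemma ev_v (a b : ℕ → Set Om.{v}) : ¬ ∀ᶠ m in U, Om.v ∈ M a b m := by
  simp only [M, mem_v]
  intro h
  exact (h.exists).choose_spec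

lemma ev_r1 (a b : ℕ → Set Om.{v}) (j : ℕ → ℕ) : ¬ ∀ᶠ m in U, Om.r1 (j m) ∈ M a b m := by
  simp only [M, mem_r1]
  intro h
  exact (h.exists).choose_spec

lemma ev_idx (a : ℕ → Set Om.{v}) {f : ℕ → Om.{v}} {g : ℕ → Om.{v}} (h : ∀ᶠ m in U, f m = g m)
    (hg : ∀ᶠ m in U, f m ∈ a m) : ∀ᶠ m in U, g m ∈ a m := by
  filter_upwards [h, hg] with m h1 h2
  rwa [← h1]

lemma ev_t (a b : ℕ → Set Om.{v}) :
    (∀ᶠ m in U, Om.t ∈ M a b m) ↔
      ((∀ᶠ m in U, Om.v ∈ a m) ∧ ∀ᶠ m in U, phi m (b m)) ∨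
      (∀ᶠ m in U, Om.t ∈ a m) ∨ ((∀ᶠ m in U, Om.k ∈ b m) ∧
        ∃ i : ℕ → ℕ, (∀ᶠ m in U, Om.r0 (i m) ∈ a m) ∧
          ((∀ᶠ m in U, i m = 0) ∨ ∀ᶠ m in U, i m = m + 2)) := by
  simp only [M, mem_t]
  rw [Ultrafilter.eventually_or, Ultrafilter.eventually_or, eventually_and, eventually_and,
    Ultrafilter.eventually_or]
  apply or_congr Iff.rfl
  apply or_congr Iff.rfl
  apply and_congr Iff.rfl
  constructor
  · rintro (h | h)
    · exact ⟨fun _ => 0, h, Or.inl (Eventually.of_forall fun _ => rfl)⟩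
    · exact ⟨fun m => m + 2, h, Or.inr (Eventually.of_forall fun _ => rfl)⟩
  · rintro ⟨i, h, h1 | h1⟩
    · exact Or.inl (ev_idx a (h1.mono fun m hm => by rw [hm]) h)
    · exact Or.inr (ev_idx a (h1.mono fun m hm => by rw [hm]) h)

lemma sup_mul (m n : ℕ) (a b : Set Om.{v}) : sup (mulSet m a b) n ↔ Om.s1 n ∈ mulSet m a b := by
  unfold sup
  rw [mem_r1, or_false]

lemma sup_mul_of (m n : ℕ) (a b : Set Om.{v}) (h : sup a n) : sup (mulSet m a b) n := by
  rw [sup_mul, mem_s1]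
  rcases h with h | h
  · exact Or.inl h
  · exact Or.inr (Or.inl h)

lemma bd_mul (a b : ℕ → Set Om.{v}) : Bd (M a b) ↔ Bd a := by
  constructor
  · rintro ⟨n, hn⟩
    exact ⟨n, hn.mono fun m h k hk => h k (sup_mul_of m k _ _ hk)⟩
  · rintro ⟨n, hn⟩
    refine ⟨n + 1, hn.mono fun m h k hk => ?_⟩
    unfold M at hk
    rw [sup_mul, mem_s1] at hk
    rcases hk with hk | hk | ⟨_, j, rfl, hj⟩
    · exact (h k (Or.inl hk)).trans (Nat.le_succ n)
    · exact (h k (Or.inr hk)).trans (Nat.le_succ n)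
    · exact Nat.succ_le_succ (h j (Or.inr hj))

lemma ev_phi (b : ℕ → Set Om.{v}) :
    (∀ᶠ m in U, phi m (b m)) ↔
      (∃ i, Mid i ∧ ∀ᶠ m in U, sup (b m) (i m)) ∨ (Bd b ∧ ∀ᶠ m in U, sup (b m) 0) := by
  constructor
  · intro h
    by_cases hm : ∀ᶠ m in U, ∃ n, sup (b m) n ∧ n ≠ 0 ∧ n ≠ m + 2
    · left
      classical
      refine ⟨fun m => if hx : ∃ n, sup (b m) n ∧ n ≠ 0 ∧ n ≠ m + 2 then hx.choose else 0, ?_, ?_⟩
      · unfold Mid
        filter_upwards [hm] with m hx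
        rw [dif_pos hx]
        exact hx.choose_spec.2
      · filter_upwards [hm] with m hx
        rw [dif_pos hx]
        exact hx.choose_spec.1
    · right
      rw [← Ultrafilter.eventually_not] at hm
      have h2 : ∀ᶠ m in U, sup (b m) 0 ∧ ¬ sup (b m) (m + 2) := by
        filter_upwards [h, hm] with m h1 h2
        rcases h1 with h1 | h1
        · exact absurd h1 h2
        · exact h1
      refine ⟨⟨0, ?_⟩, h2.mono fun m h => h.1⟩
      filter_upwards [hm, h2] with m h3 h4 k hk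
      by_contra h5
      apply h3
      refine ⟨k, hk, by omega, ?_⟩
      rintro rfl
      exact h4.2 hk
  · rintro (⟨i, h1, h2⟩ | ⟨⟨n, hn⟩, h0⟩)
    · filter_upwards [h1, h2] with m h1 h2
      exact Or.inl ⟨i m, h2, h1⟩
    · filter_upwards [hn, h0, ev_large n] with m h1 h2 h3
      refine Or.inr ⟨h2, fun h4 => ?_⟩
      have := h1 _ h4
      omega

/-- arrows out of the middle nodes towards the nodes `s j` -/
lemma s1_case (a b : ℕ → Set Om.{v}) (j : ℕ → ℕ) :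
    (∀ᶠ m in U, Om.s1 (j m) ∈ M a b m) ↔
      (∀ᶠ m in U, Om.s1 (j m) ∈ a m) ∨ ∃ i : ℕ → ℕ, (∀ᶠ m in U, Om.r1 (i m) ∈ a m) ∧
        H.{u} b (.p i) (.s j) := by
  rw [ev_s1]
  apply or_congr Iff.rfl
  constructor
  · rintro (h | ⟨hk, i, h1, h2⟩)
    · exact ⟨j, h, Or.inl (Eventually.of_forall fun _ => rfl)⟩
    · exact ⟨i, h2, Or.inr ⟨hk, h1⟩⟩
  · rintro ⟨i, h, h1 | ⟨hk, h1⟩⟩
    · left
      exact ev_idx a (h1.mono fun m hm => by rw [hm]) h
    · right
      exact ⟨hk, i, h1, h⟩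

lemma s0_case (a b : ℕ → Set Om.{v}) (j : ℕ → ℕ) :
    (∀ᶠ m in U, Om.s0 (j m) ∈ M a b m) ↔
      ((∀ᶠ m in U, Om.v ∈ a m) ∧ ∀ᶠ m in U, Om.s1 (j m) ∈ b m) ∨
      (∀ᶠ m in U, Om.s0 (j m) ∈ a m) ∨ ∃ i : ℕ → ℕ, (∀ᶠ m in U, Om.r0 (i m) ∈ a m) ∧
        H.{u} b (.p i) (.s j) := by
  rw [ev_s0]
  apply or_congr Iff.rfl
  apply or_congr Iff.rfl
  constructor
  · rintro (h | ⟨hk, i, h1, h2⟩)
    · exact ⟨j, h, Or.inl (Eventually.of_forall fun _ => rfl)⟩
    · exact ⟨i, h2, Or.inr ⟨hk, h1⟩⟩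
  · rintro ⟨i, h, h1 | ⟨hk, h1⟩⟩
    · left
      exact ev_idx a (h1.mono fun m hm => by rw [hm]) h
    · right
      exact ⟨hk, i, h1, h⟩

lemma H_mul_y0z (a b : ℕ → Set Om.{v}) :
    H.{u} (M a b) .y0 .z ↔ H.{u} a .y0 .z ∨ ∃ i : ℕ → ℕ, (∀ᶠ m in U, Om.r1 (i m) ∈ a m) ∧
      H.{u} b (.p i) .z := by
  constructor
  · rintro ⟨j, hj, h⟩
    have h1 : ∀ᶠ m in U, Om.s1 (j m) ∈ M a b m := by
      filter_upwards [h] with m hm
      unfold M at hm ⊢
      rwa [sup_mul] at hm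
    rw [ev_s1] at h1
    rcases h1 with h1 | h1 | ⟨hk, i, h1, h2⟩
    · exact Or.inl ⟨j, hj, h1.mono fun m h => Or.inl h⟩
    · exact Or.inl ⟨j, hj, h1.mono fun m h => Or.inr h⟩
    · by_cases hi : Mid i
      · exact Or.inl ⟨i, hi, h2.mono fun m h => Or.inr h⟩
      · right
        refine ⟨i, h2, hk, ?_⟩
        unfold Mid at hi
        rw [← Ultrafilter.eventually_not] at hi
        rw [← Ultrafilter.eventually_or]
        filter_upwards [hi] with m hm
        tauto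
  · rintro (⟨i, hi, h⟩ | ⟨i, h, hk, h1⟩)
    · exact ⟨i, hi, h.mono fun m hm => sup_mul_of m _ _ _ hm⟩
    · refine ⟨fun m => i m + 1, ?_, ?_⟩
      · unfold Mid
        rcases h1 with h1 | h1
        · filter_upwards [h1] with m hm
          omega
        · filter_upwards [h1] with m hm
          omega
      · filter_upwards [h, hk] with m h hk
        unfold M
        rw [sup_mul, mem_s1]
        exact Or.inr (Or.inr ⟨hk, i m, rfl, h⟩)

lemma H_mul (a b : ℕ → Set Om.{v}) : ∀ n w : Node.{u},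
    (H (M a b) n w ↔ ∃ c : Node.{u}, H a n c ∧ H b c w)
  -- from `om`
  | .om, .om => ⟨fun _ => ⟨.om, trivial, trivial⟩, fun _ => trivial⟩
  | .om, .x => ⟨fun h => h.elim, fun ⟨c, h1, h2⟩ => by cases c <;> simp [H] at h1 h2⟩
  | .om, .y0 => ⟨fun h => h.elim, fun ⟨c, h1, h2⟩ => by cases c <;> simp [H] at h1 h2⟩
  | .om, .y1 => ⟨fun h => h.elim, fun ⟨c, h1, h2⟩ => by cases c <;> simp [H] at h1 h2⟩
  | .om, .z => ⟨fun h => h.elim, fun ⟨c, h1, h2⟩ => by cases c <;> simp [H] at h1 h2⟩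
  | .om, .s i => ⟨fun h => h.elim, fun ⟨c, h1, h2⟩ => by cases c <;> simp [H] at h1 h2⟩
  | .om, .p i => ⟨fun h => h.elim, fun ⟨c, h1, h2⟩ => by cases c <;> simp [H] at h1 h2⟩
  -- from `z`
  | .z, .om => ⟨fun _ => ⟨.om, trivial, trivial⟩, fun _ => trivial⟩
  | .z, .z => ⟨fun _ => ⟨.z, trivial, trivial⟩, fun _ => trivial⟩
  | .z, .x => ⟨fun h => h.elim, fun ⟨c, h1, h2⟩ => by cases c <;> simp [H] at h1 h2⟩
  | .z, .y0 => ⟨fun h => h.elim, fun ⟨c, h1, h2⟩ => by cases c <;> simp [H] at h1 h2⟩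
  | .z, .y1 => ⟨fun h => h.elim, fun ⟨c, h1, h2⟩ => by cases c <;> simp [H] at h1 h2⟩
  | .z, .s i => ⟨fun h => h.elim, fun ⟨c, h1, h2⟩ => by cases c <;> simp [H] at h1 h2⟩
  | .z, .p i => ⟨fun h => h.elim, fun ⟨c, h1, h2⟩ => by cases c <;> simp [H] at h1 h2⟩
  -- from `s i`
  | .s i, .om => ⟨fun _ => ⟨.om, trivial, trivial⟩, fun _ => trivial⟩
  | .s i, .s j => by
    constructor
    · intro h
      exact ⟨.s j, h, rfl⟩
    · rintro ⟨c, h1, h2⟩
      cases c with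
      | s l => exact Eq.trans h1 h2
      | _ => simp [H] at h1 h2
  | .s i, .x => ⟨fun h => h.elim, fun ⟨c, h1, h2⟩ => by cases c <;> simp [H] at h1 h2⟩
  | .s i, .y0 => ⟨fun h => h.elim, fun ⟨c, h1, h2⟩ => by cases c <;> simp [H] at h1 h2⟩
  | .s i, .y1 => ⟨fun h => h.elim, fun ⟨c, h1, h2⟩ => by cases c <;> simp [H] at h1 h2⟩
  | .s i, .z => ⟨fun h => h.elim, fun ⟨c, h1, h2⟩ => by cases c <;> simp [H] at h1 h2⟩
  | .s i, .p j => ⟨fun h => h.elim, fun ⟨c, h1, h2⟩ => by cases c <;> simp [H] at h1 h2⟩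
  -- from `p i`
  | .p i, .om => ⟨fun _ => ⟨.om, trivial, trivial⟩, fun _ => trivial⟩
  | .p i, .s j => by
    constructor
    · intro h
      exact ⟨.s j, h, rfl⟩
    · rintro ⟨c, h1, h2⟩
      cases c with
      | s l =>
        have e : l = j := h2
        subst e
        exact h1
      | _ => simp [H] at h1 h2
  | .p i, .z => by
    constructor
    · intro h
      exact ⟨.z, h, trivial⟩
    · rintro ⟨c, h1, h2⟩
      cases c with
      | z => exact h1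
      | _ => simp [H] at h1 h2
  | .p i, .x => ⟨fun h => h.elim, fun ⟨c, h1, h2⟩ => by cases c <;> simp [H] at h1 h2⟩
  | .p i, .y0 => ⟨fun h => h.elim, fun ⟨c, h1, h2⟩ => by cases c <;> simp [H] at h1 h2⟩
  | .p i, .y1 => ⟨fun h => h.elim, fun ⟨c, h1, h2⟩ => by cases c <;> simp [H] at h1 h2⟩
  | .p i, .p j => ⟨fun h => h.elim, fun ⟨c, h1, h2⟩ => by cases c <;> simp [H] at h1 h2⟩
  -- from `y0`
  | .y0, .om => ⟨fun _ => ⟨.om, trivial, trivial⟩, fun _ => trivial⟩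
  | .y0, .s j => by
    constructor
    · intro h
      rcases (s1_case.{u} a b j).1 h with h | ⟨i, h1, h2⟩
      · exact ⟨.s j, h, rfl⟩
      · exact ⟨.p i, h1, h2⟩
    · rintro ⟨c, h1, h2⟩
      apply (s1_case.{u} a b j).2
      cases c with
      | s l =>
        have e : l = j := h2
        subst e
        exact Or.inl h1
      | p i => exact Or.inr ⟨i, h1, h2⟩
      | _ => simp [H] at h1 h2
  | .y0, .z => by
    constructor
    · intro h
      rcases (H_mul_y0z a b).1 h with h | ⟨i, h1, h2⟩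
      · exact ⟨.z, h, trivial⟩
      · exact ⟨.p i, h1, h2⟩
    · rintro ⟨c, h1, h2⟩
      apply (H_mul_y0z a b).2
      cases c with
      | z => exact Or.inl h1
      | p i => exact Or.inr ⟨i, h1, h2⟩
      | _ => simp [H] at h1 h2
  | .y0, .p j => ⟨fun h => (ev_r1 a b j h).elim, fun ⟨c, h1, h2⟩ => by
      cases c <;> simp [H] at h1 h2⟩
  | .y0, .x => ⟨fun h => h.elim, fun ⟨c, h1, h2⟩ => by cases c <;> simp [H] at h1 h2⟩
  | .y0, .y0 => ⟨fun h => h.elim, fun ⟨c, h1, h2⟩ => by cases c <;> simp [H] at h1 h2⟩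
  | .y0, .y1 => ⟨fun h => h.elim, fun ⟨c, h1, h2⟩ => by cases c <;> simp [H] at h1 h2⟩
  -- from `y1`
  | .y1, .om => by
    constructor
    · intro h
      exact ⟨.om, (bd_mul a b).1 h, trivial⟩
    · rintro ⟨c, h1, h2⟩
      exact (bd_mul a b).2 (H_y1 a c h1)
  | .y1, .s j => by
    constructor
    · rintro ⟨hb, h⟩
      have hb := (bd_mul a b).1 hb
      rcases (s1_case.{u} a b j).1 h with h | ⟨i, h1, h2⟩
      · exact ⟨.s j, ⟨hb, h⟩, rfl⟩
      · exact ⟨.p i, ⟨hb, h1⟩, h2⟩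
    · rintro ⟨c, h1, h2⟩
      have hb := H_y1 a c h1
      refine ⟨(bd_mul a b).2 hb, ?_⟩
      apply (s1_case.{u} a b j).2
      cases c with
      | s l =>
        have e : l = j := h2
        subst e
        exact Or.inl h1.2
      | p i => exact Or.inr ⟨i, h1.2, h2⟩
      | _ => simp [H] at h1 h2
  | .y1, .z => by
    constructor
    · rintro ⟨hb, h⟩
      have hb := (bd_mul a b).1 hb
      refine ⟨.z, ⟨hb, ?_⟩, trivial⟩
      filter_upwards [h] with m hm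
      unfold M at hm
      rw [sup_mul, mem_s1] at hm
      rcases hm with hm | hm | ⟨_, j, hj, _⟩
      · exact Or.inl hm
      · exact Or.inr hm
      · omega
    · rintro ⟨c, h1, h2⟩
      have hb := H_y1 a c h1
      refine ⟨(bd_mul a b).2 hb, ?_⟩
      cases c with
      | z => exact h1.2.mono fun m hm => sup_mul_of m _ _ _ hm
      | p i =>
        obtain ⟨_, h3⟩ := h1
        obtain ⟨hk, h4 | h4⟩ := h2
        · filter_upwards [h3, h4] with m h3 h4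
          rw [h4] at h3
          exact sup_mul_of m _ _ _ (Or.inr h3)
        · obtain ⟨n, hn⟩ := hb
          have : ∀ᶠ _m : ℕ in (U : Filter ℕ), False := by
            filter_upwards [h3, h4, hn, ev_large n] with m h3 h4 h5 h6
            have := h5 (i m) (Or.inr h3)
            omega
          exact this.mono fun m h => h.elim
      | _ => simp [H] at h1 h2
  | .y1, .p j => ⟨fun h => (ev_r1 a b j h.2).elim, fun ⟨c, h1, h2⟩ => by
      cases c <;> simp [H] at h1 h2⟩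
  | .y1, .x => ⟨fun h => h.elim, fun ⟨c, h1, h2⟩ => by cases c <;> simp [H] at h1 h2⟩
  | .y1, .y0 => ⟨fun h => h.elim, fun ⟨c, h1, h2⟩ => by cases c <;> simp [H] at h1 h2⟩
  | .y1, .y1 => ⟨fun h => h.elim, fun ⟨c, h1, h2⟩ => by cases c <;> simp [H] at h1 h2⟩
  -- from `x`
  | .x, .om => ⟨fun _ => ⟨.om, trivial, trivial⟩, fun _ => trivial⟩
  | .x, .s j => by
    constructor
    · intro h
      rcases (s0_case.{u} a b j).1 h with ⟨h1, h2⟩ | h | ⟨i, h1, h2⟩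
      · exact ⟨.y0, h1, h2⟩
      · exact ⟨.s j, h, rfl⟩
      · exact ⟨.p i, h1, h2⟩
    · rintro ⟨c, h1, h2⟩
      apply (s0_case.{u} a b j).2
      cases c with
      | y0 => exact Or.inl ⟨h1, h2⟩
      | y1 => exact Or.inl ⟨h1, h2.2⟩
      | s l =>
        have e : l = j := h2
        subst e
        exact Or.inr (Or.inl h1)
      | p i => exact Or.inr (Or.inr ⟨i, h1, h2⟩)
      | _ => simp [H] at h1 h2
  | .x, .p j => by
    constructor
    · intro h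
      obtain ⟨h1, h2⟩ := (ev_r0 a b j).1 h
      exact ⟨.y0, h1, h2⟩
    · rintro ⟨c, h1, h2⟩
      apply (ev_r0 a b j).2
      cases c with
      | y0 => exact ⟨h1, h2⟩
      | y1 => exact ⟨h1, h2.2⟩
      | _ => simp [H] at h1 h2
  | .x, .z => by
    constructor
    · intro h
      rcases (ev_t a b).1 h with ⟨h1, h2⟩ | h | ⟨hk, i, h1, h2⟩
      · rcases (ev_phi b).1 h2 with h3 | h3
        · exact ⟨.y0, h1, h3⟩
        · exact ⟨.y1, h1, h3⟩
      · exact ⟨.z, h, trivial⟩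
      · exact ⟨.p i, h1, hk, h2⟩
    · rintro ⟨c, h1, h2⟩
      apply (ev_t a b).2
      cases c with
      | y0 => exact Or.inl ⟨h1, (ev_phi b).2 (Or.inl h2)⟩
      | y1 => exact Or.inl ⟨h1, (ev_phi b).2 (Or.inr h2)⟩
      | z => exact Or.inr (Or.inl h1)
      | p i => exact Or.inr (Or.inr ⟨h2.1, i, h1, h2.2⟩)
      | _ => simp [H] at h1 h2
  | .x, .x => ⟨fun h => h.elim, fun ⟨c, h1, h2⟩ => by cases c <;> simp [H] at h1 h2⟩
  | .x, .y0 => ⟨fun h => (ev_v a b h).elim, fun ⟨c, h1, h2⟩ => by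
      cases c <;> simp [H] at h1 h2⟩
  | .x, .y1 => ⟨fun h => (ev_v a b h).elim, fun ⟨c, h1, h2⟩ => by
      cases c <;> simp [H] at h1 h2⟩

/-! ### Faithfulness -/

lemma ev_all {P Q : ℕ → ℕ → Prop}
    (h : ∀ i : ℕ → ℕ, (∀ᶠ m in U, P m (i m)) → ∀ᶠ m in U, Q m (i m)) :
    ∀ᶠ m in U, ∀ n, P m n → Q m n := by
  by_contra hno
  rw [← Ultrafilter.eventually_not] at hno
  classical
  set i : ℕ → ℕ := fun m => if hx : ∃ n, P m n ∧ ¬ Q m n then hx.choose else 0 with hi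
  have h1 : ∀ᶠ m in U, P m (i m) ∧ ¬ Q m (i m) := by
    filter_upwards [hno] with m hm
    push Not at hm
    have hx : ∃ n, P m n ∧ ¬ Q m n := hm
    simp only [hi]
    rw [dif_pos hx]
    exact hx.choose_spec
  have h2 := h i (h1.mono fun m h => h.1)
  have h3 : ∀ᶠ _m : ℕ in (U : Filter ℕ), False := by
    filter_upwards [h1, h2] with m h1 h2
    exact h1.2 h2
  exact (h3.exists).choose_spec

lemma H_sub {a b : ℕ → Set Om.{v}} (h : ∀ n w : Node.{u}, H a n w → H b n w) :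
    ∀ᶠ m in U, a m ⊆ b m := by
  have c1 : ∀ᶠ m in U, ∀ n, Om.s0 n ∈ a m → Om.s0 n ∈ b m := ev_all fun i hi => h .x (.s i) hi
  have c2 : ∀ᶠ m in U, ∀ n, Om.r0 n ∈ a m → Om.r0 n ∈ b m := ev_all fun i hi => h .x (.p i) hi
  have c3 : ∀ᶠ m in U, ∀ n, Om.s1 n ∈ a m → Om.s1 n ∈ b m := ev_all fun i hi => h .y0 (.s i) hi
  have c4 : ∀ᶠ m in U, ∀ n, Om.r1 n ∈ a m → Om.r1 n ∈ b m := ev_all fun i hi => h .y0 (.p i) hi
  have c5 : ∀ᶠ m in U, ∀ _n : ℕ, Om.v ∈ a m → Om.v ∈ b m := ev_all fun _ hi => h .x .y0 hi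
  have c6 : ∀ᶠ m in U, ∀ _n : ℕ, Om.t ∈ a m → Om.t ∈ b m := ev_all fun _ hi => h .x .z hi
  have c7 : ∀ᶠ m in U, ∀ _n : ℕ, Om.k ∈ a m → Om.k ∈ b m := ev_all fun _ hi => by
    have h1 : H.{u} a (.p fun _ => 0) (.s fun _ => 1) :=
      Or.inr ⟨hi, Eventually.of_forall fun _ => rfl⟩
    rcases h _ _ h1 with h2 | h2
    · obtain ⟨m, hm⟩ := h2.exists
      exact absurd hm (by norm_num)
    · exact h2.1
  filter_upwards [c1, c2, c3, c4, c5, c6, c7] with m c1 c2 c3 c4 c5 c6 c7 q hq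
  cases q with
  | v => exact c5 0 hq
  | s0 n => exact c1 n hq
  | r0 n => exact c2 n hq
  | t => exact c6 0 hq
  | s1 n => exact c3 n hq
  | r1 n => exact c4 n hq
  | k => exact c7 0 hq

lemma H_congr {a b : ℕ → Set Om.{v}} (h : ∀ᶠ m in U, a m = b m) (n w : Node.{u}) :
    H a n w → H b n w := by
  have hm : ∀ (f : ℕ → Om.{v}), (∀ᶠ m in U, f m ∈ a m) → ∀ᶠ m in U, f m ∈ b m := by
    intro f hf
    filter_upwards [h, hf] with m h1 h2
    rwa [← h1]
  have hs : ∀ (f : ℕ → ℕ), (∀ᶠ m in U, sup (a m) (f m)) → ∀ᶠ m in U, sup (b m) (f m) := by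
    intro f hf
    filter_upwards [h, hf] with m h1 h2
    rwa [← h1]
  have hb : Bd a → Bd b := by
    rintro ⟨k, hk⟩
    refine ⟨k, ?_⟩
    filter_upwards [h, hk] with m h1 h2
    rwa [← h1]
  cases n with
  | x => cases w with
    | y0 => exact hm _
    | y1 => exact hm _
    | s i => exact hm _
    | p i => exact hm _
    | z => exact hm _
    | _ => exact id
  | y0 => cases w with
    | s i => exact hm _
    | p i => exact hm _
    | z => exact fun ⟨i, h1, h2⟩ => ⟨i, h1, hs i h2⟩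
    | _ => exact id
  | y1 => cases w with
    | s i => exact fun ⟨h1, h2⟩ => ⟨hb h1, hm _ h2⟩
    | p i => exact fun ⟨h1, h2⟩ => ⟨hb h1, hm _ h2⟩
    | z => exact fun ⟨h1, h2⟩ => ⟨hb h1, hs _ h2⟩
    | om => exact hb
    | _ => exact id
  | p i => cases w with
    | s j => exact fun h1 => h1.imp id fun ⟨h2, h3⟩ => ⟨hm _ h2, h3⟩
    | z => exact fun ⟨h1, h2⟩ => ⟨hm _ h1, h2⟩
    | _ => exact id
  | om => cases w <;> exact id
  | z => cases w <;> exact id
  | s i => cases w <;> exact id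

/-! ### The ultraproduct -/

/-- the ultraproduct -/
abbrev Ult : Type v := (U : Filter ℕ).Product (fun m => Alg.{v} m)

/-- the class of a sequence -/
noncomputable def cls (a : ℕ → Set Om.{v}) : Ult.{v} :=
  @Quotient.mk' (∀ m : ℕ, Alg.{v} m) ((U : Filter ℕ).productSetoid fun m => Alg.{v} m) a

lemma cls_eq {a b : ℕ → Set Om.{v}} : cls a = cls b ↔ ∀ᶠ m in U, a m = b m := Quotient.eq''

lemma cls_surj (n : Ult.{v}) : ∃ a, cls a = n := by
  obtain ⟨a, ha⟩ := Quotient.exists_rep n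
  exact ⟨a, ha⟩

lemma plus_cls (a b : ℕ → Set Om.{v}) :
    plus (cls a) (cls b) = cls (fun m => addSet (a m) (b m)) := by
  have := Language.Ultraproduct.funMap_cast (L := sig) (u := U) (M := fun m => Alg.{v} m)
    (n := 2) Op.add ![(fun m => a m : ∀ m, Alg.{v} m), (fun m => b m : ∀ m, Alg.{v} m)]
  refine Eq.trans ?_ this
  unfold plus
  congr 1
  ext i
  fin_cases i <;> rfl

lemma circ_cls (a b : ℕ → Set Om.{v}) :
    circ (cls a) (cls b) = cls (M a b) := by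
  have := Language.Ultraproduct.funMap_cast (L := sig) (u := U) (M := fun m => Alg.{v} m)
    (n := 2) Op.comp ![(fun m => a m : ∀ m, Alg.{v} m), (fun m => b m : ∀ m, Alg.{v} m)]
  refine Eq.trans ?_ this
  unfold circ
  congr 1
  ext i
  fin_cases i <;> rfl

/-- a representative -/
noncomputable def rep (n : Ult.{v}) : ℕ → Set Om.{v} := (cls_surj n).choose

lemma cls_rep (n : Ult.{v}) : cls (rep n) = n := (cls_surj n).choose_spec

/-- the representation of the ultraproduct -/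
noncomputable def repr (n : Ult.{v}) : Set (Node.{u} × Node.{u}) := {q | H (rep n) q.1 q.2}

lemma H_iff {a b : ℕ → Set Om.{v}} (h : cls a = cls b) (n w : Node.{u}) : H a n w ↔ H b n w :=
  ⟨H_congr (cls_eq.1 h) n w, H_congr (cls_eq.1 h.symm) n w⟩

lemma representable_ult : Representable.{u, v} Ult.{v} := by
  refine ⟨Node.{u}, repr, ?_, ?_, ?_⟩
  · intro n n' hnn
    have h1 : ∀ y w : Node.{u}, H (rep n) y w ↔ H (rep n') y w := by
      intro y w
      have : ((y, w) ∈ repr.{u, v} n) ↔ ((y, w) ∈ repr.{u, v} n') := by rw [hnn]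
      exact this
    rw [← cls_rep n, ← cls_rep n', cls_eq]
    filter_upwards [H_sub fun y w => (h1 y w).1, H_sub fun y w => (h1 y w).2] with m h2 h3
    exact h2.antisymm h3
  · intro n n'
    ext ⟨y, w⟩
    have e : cls (rep (plus n n')) = cls (fun m => addSet (rep n m) (rep n' m)) := by
      rw [cls_rep, ← plus_cls, cls_rep, cls_rep]
    have h1 := (H_iff e y w).trans (H_add (rep n) (rep n') y w)
    exact h1
  · intro n n'
    ext ⟨y, w⟩
    have e : cls (rep (circ n n')) = cls (M (rep n) (rep n')) := by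
      rw [cls_rep, ← circ_cls, cls_rep, cls_rep]
    exact (H_iff e y w).trans (H_mul (rep n) (rep n') y w)

lemma distributive_ult : Distributive Ult.{v} := by
  intro n n1 n2 h
  obtain ⟨a, rfl⟩ := cls_surj n
  obtain ⟨b, rfl⟩ := cls_surj n1
  obtain ⟨c, rfl⟩ := cls_surj n2
  unfold le at h
  rw [plus_cls, plus_cls, cls_eq] at h
  refine ⟨cls fun m => a m ∩ b m, cls fun m => a m ∩ c m, ?_, ?_, ?_⟩
  · unfold le
    rw [plus_cls, cls_eq]
    exact Eventually.of_forall fun m => Set.union_eq_right.2 Set.inter_subset_right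
  · unfold le
    rw [plus_cls, cls_eq]
    exact Eventually.of_forall fun m => Set.union_eq_right.2 Set.inter_subset_right
  · rw [plus_cls, cls_eq]
    filter_upwards [h] with m hm
    unfold addSet at hm ⊢
    rw [← Set.inter_union_distrib_left]
    exact (Set.inter_eq_left.2 (Set.union_eq_right.1 hm)).symm

/-- **The class `D` of distributive demonic join semigroups of relations is not finitely
axiomatisable**: no finite set of first-order sentences in the signature with the two binary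
operations has exactly the members of `D` as its models. -/
theorem result : ¬ ∃ T : sig.Theory, T.Finite ∧
    ∀ (A : Type v) [sig.Structure A], A ⊨ T ↔ InD.{u, v} A := by
  rintro ⟨T, hT, h⟩
  have h1 : Ult.{v} ⊨ T := (h Ult.{v}).2 ⟨representable_ult, distributive_ult⟩
  have h2 : ∀ φ ∈ T, ∀ᶠ m in U, Alg.{v} m ⊨ φ := by
    intro φ hφ
    have h3 : Ult.{v} ⊨ φ := Language.Theory.realize_sentence_of_mem T hφ
    exact (Language.Ultraproduct.sentence_realize (M := fun m => Alg.{v} m) φ).1 h3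
  have h3 : ∀ᶠ m in U, ∀ φ ∈ T, Alg.{v} m ⊨ φ := (eventually_all_finite hT).2 h2
  obtain ⟨m, hm⟩ := h3.exists
  have h4 : Alg.{v} m ⊨ T := ⟨fun φ hφ => hm φ hφ⟩
  exact not_representable m ((h (Alg.{v} m)).1 h4).1

end Pool.Agent.Results.MP_1770d1_lc.NotFinAx
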